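import Pool.Agent.Y52.SJ.Stm

/-!
# A largest affine conformally symplectic image of the unit ball (S_MAX)
-/

set_option autoImplicit false

namespace Pool.Agent.Y450.SJ

open Pool.Agent.Y52.SJ

theorem main : S_MAX := by
  intro V _ _ _ _ J hJ C hC hint
  obtain ⟨e, he⟩ := exists_norm_eq V (zero_le_one (α := ℝ))
  have hee : om J e (J e) = 1 := by
    unfold om
    rw [hJ.2 e e, real_inner_self_eq_norm_sq, he, one_pow]
  let g : (V →L[ℝ] V) → ℝ := fun P => om J (P e) (P (J e))
  have hgs : ∀ (P : V →L[ℝ] V) (s : ℝ), Conf J P s → s = g P := by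
    intro P s h
    have := h e (J e)
    rw [hee, mul_one] at this
    exact this.symm
  have cP : ∀ x : V, Continuous fun p : (V →L[ℝ] V) × V => p.1 x := by
    intro x
    fun_prop
  have cO : ∀ x y : V, Continuous fun p : (V →L[ℝ] V) × V => om J (p.1 x) (p.1 y) := by
    intro x y
    unfold om
    exact (J.continuous.comp (cP x)).inner (cP y)
  have cg : Continuous fun p : (V →L[ℝ] V) × V => g p.1 := cO e (J e)
  let F : Set ((V →L[ℝ] V) × V) := {p | Conf J p.1 (g p.1) ∧ ∀ x, ‖x‖ ≤ 1 → p.2 + p.1 x ∈ C}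
  have hclosed : IsClosed F := by
    have h1 : IsClosed {p : (V →L[ℝ] V) × V | Conf J p.1 (g p.1)} := by
      have : {p : (V →L[ℝ] V) × V | Conf J p.1 (g p.1)} =
          ⋂ x : V, ⋂ y : V, {p | om J (p.1 x) (p.1 y) = g p.1 * om J x y} := by
        ext p
        simp [Conf]
      rw [this]
      exact isClosed_iInter fun x => isClosed_iInter fun y =>
        isClosed_eq (cO x y) (cg.mul continuous_const)
    have h2 : IsClosed {p : (V →L[ℝ] V) × V | ∀ x, ‖x‖ ≤ 1 → p.2 + p.1 x ∈ C} := by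
      have : {p : (V →L[ℝ] V) × V | ∀ x, ‖x‖ ≤ 1 → p.2 + p.1 x ∈ C} =
          ⋂ x : V, ⋂ _ : ‖x‖ ≤ 1, {p | p.2 + p.1 x ∈ C} := by
        ext p
        simp
      rw [this]
      exact isClosed_iInter fun x => isClosed_iInter fun _ =>
        hC.isClosed.preimage (continuous_snd.add (cP x))
    exact h1.inter h2
  have hbdd : Bornology.IsBounded F := by
    obtain ⟨M, hM⟩ := hC.isBounded.exists_norm_le
    rw [isBounded_iff_forall_norm_le]
    refine ⟨2 * M, fun p hp => ?_⟩
    have hb : ‖p.2‖ ≤ M := by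
      have := hM _ (hp.2 0 (by simp))
      simpa using this
    have hM0 : 0 ≤ M := (norm_nonneg _).trans hb
    have hP : ‖p.1‖ ≤ 2 * M := by
      apply ContinuousLinearMap.opNorm_le_of_unit_norm (by positivity)
      intro x hx
      have h1 := hM _ (hp.2 x hx.le)
      have h2 : p.1 x = (p.2 + p.1 x) - p.2 := by abel
      rw [h2]
      exact (norm_sub_le _ _).trans (by linarith)
    rw [Prod.norm_def]
    exact max_le hP (by linarith)
  haveI : ProperSpace ((V →L[ℝ] V) × V) := FiniteDimensional.proper ℝ _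
  have hcpt : IsCompact F := Metric.isCompact_of_isClosed_isBounded hclosed hbdd
  obtain ⟨b, hb⟩ := hint
  obtain ⟨ρ, hρ, hball⟩ := Metric.isOpen_iff.mp isOpen_interior b hb
  let P₀ : V →L[ℝ] V := (ρ / 2) • ContinuousLinearMap.id ℝ V
  have hP₀ : ∀ x, P₀ x = (ρ / 2) • x := fun x => rfl
  have hconf : Conf J P₀ ((ρ / 2) ^ 2) := by
    intro x y
    unfold om
    rw [hP₀, hP₀, map_smul, inner_smul_left, inner_smul_right]
    simp
    ring
  have hmem : (P₀, b) ∈ F := by
    refine ⟨?_, fun x hx => ?_⟩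
    · show Conf J P₀ (g P₀)
      rw [← hgs P₀ _ hconf]
      exact hconf
    · apply interior_subset
      apply hball
      rw [Metric.mem_ball, dist_eq_norm]
      show ‖b + P₀ x - b‖ < ρ
      rw [add_sub_cancel_left, hP₀, norm_smul, Real.norm_eq_abs, abs_of_pos (by positivity)]
      nlinarith
  obtain ⟨p, hp, hmax⟩ := hcpt.exists_isMaxOn ⟨_, hmem⟩ cg.continuousOn
  refine ⟨p.1, p.2, g p.1, ?_, hp.1, hp.2, ?_⟩
  · have h1 : g P₀ ≤ g p.1 := hmax hmem
    rw [← hgs P₀ _ hconf] at h1
    exact lt_of_lt_of_le (by positivity) h1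
  · intro P' b' s' hc hx
    have hs := hgs P' s' hc
    have hm : (P', b') ∈ F := by
      refine ⟨?_, hx⟩
      show Conf J P' (g P')
      rw [← hs]
      exact hc
    have h1 : g P' ≤ g p.1 := hmax hm
    rw [hs]
    exact h1

end Pool.Agent.Y450.SJ
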